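import Pool.Agent.L7h12.SV.Stm

set_option autoImplicit false

/-! [BOX] of project SV (helper12). -/

namespace Pool.Agent.L7h6.SV

open Polynomial Set Pool.Agent.L7h12.SV

theorem s_BOX : S_BOX := by
  intro p f K hK x1 x2 y1 y2 h1 h2 hp hf
  by_contra hn
  have hZ1 : p.eval x1 = f.eval y1 := hK.sub h1
  have hZ2 : p.eval x2 = f.eval y2 := h2
  have hc : IsCompact (uIcc x1 x2 ×ˢ uIcc y1 y2) := isCompact_uIcc.prod isCompact_uIcc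
  have c1 : IsClosed (Prod.fst '' (K ∩ (uIcc x1 x2 ×ˢ uIcc y1 y2))) :=
    ((hc.inter_left hK.closed).image continuous_fst).isClosed
  have c2 : IsClosed (Prod.fst '' ((Z p f \ K) ∩ (uIcc x1 x2 ×ˢ uIcc y1 y2))) :=
    ((hc.inter_left hK.rest).image continuous_fst).isClosed
  have hcov : uIcc x1 x2 ⊆ Prod.fst '' (K ∩ (uIcc x1 x2 ×ˢ uIcc y1 y2)) ∪
      Prod.fst '' ((Z p f \ K) ∩ (uIcc x1 x2 ×ˢ uIcc y1 y2)) := by
    intro x hx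
    have h3 := hp x hx
    rw [hZ1, hZ2] at h3
    obtain ⟨y, hy, hy2⟩ := intermediate_value_uIcc
      (f := fun y => f.eval y) f.continuous.continuousOn h3
    have h4 : (x, y) ∈ Z p f := hy2.symm
    by_cases h5 : (x, y) ∈ K
    · exact Or.inl ⟨(x, y), ⟨h5, hx, hy⟩, rfl⟩
    · exact Or.inr ⟨(x, y), ⟨⟨h4, h5⟩, hx, hy⟩, rfl⟩
  obtain ⟨x, hx, hxa, hxb⟩ := isPreconnected_closed_iff.1 isPreconnected_uIcc _ _ c1 c2 hcov
    ⟨x1, left_mem_uIcc, (x1, y1), ⟨h1, left_mem_uIcc, left_mem_uIcc⟩, rfl⟩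
    ⟨x2, right_mem_uIcc, (x2, y2), ⟨⟨h2, hn⟩, right_mem_uIcc, right_mem_uIcc⟩, rfl⟩
  obtain ⟨⟨a, b⟩, ⟨hab, -, hb⟩, ha⟩ := hxa
  obtain ⟨⟨c, d⟩, ⟨⟨hcd, hcd2⟩, -, hd⟩, hc2⟩ := hxb
  simp only at ha hc2 hb hd
  subst ha
  subst hc2
  have h6 : p.eval c = f.eval b := hK.sub hab
  have h7 : p.eval c = f.eval d := hcd
  have h8 : b = d := hf hb hd (h6.symm.trans h7)
  subst h8
  exact hcd2 hab

end Pool.Agent.L7h6.SV
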